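import Pool.Agent.helper23.CS.Spec

set_option autoImplicit false
set_option linter.unusedVariables false

open Finset Filter Topology MeasureTheory

namespace CS

open CU

/-- a set of vertices of `zG Λ` not containing the ghost -/
lemma CRIT_img {d : ℕ} (Λ : Finset (ZSite d)) (S' : Finset (Option {x // x ∈ Λ})) (hn : none ∉ S') :
    (Λ.filter fun x => cl Λ x ∈ S').image (cl Λ) = S' := by
  ext v
  constructor
  · intro hv
    obtain ⟨x, hx, rfl⟩ := Finset.mem_image.1 hv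
    exact (Finset.mem_filter.1 hx).2
  · intro hv
    rcases v with _ | ⟨x, hx⟩
    · exact absurd hv hn
    · have e : cl Λ x = some ⟨x, hx⟩ := by unfold cl; exact dif_pos hx
      exact Finset.mem_image.2 ⟨x, Finset.mem_filter.2 ⟨hx, by rw [e]; exact hv⟩, e⟩

/-- `psi` of `zG Λ` is `psz` -/
lemma CRIT_psi (hTR2 : TR2_stmt) {d : ℕ} (b : ℝ) (Λ S : Finset (ZSite d)) (hS : S ⊆ Λ) (h0 : (0 : ZSite d) ∈ S) :
    psi (zG Λ) b univ (S.image (cl Λ)) (cl Λ 0) = psz b S := by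
  obtain ⟨h1, h2⟩ := hTR2 d b Λ S hS h0 (fun _ => 1)
  simp only [mul_one] at h1 h2
  unfold psi psz
  rw [h1, h2]

lemma CRIT_mono (hMONO : MONO_stmt) {d : ℕ} (β b : ℝ) (h0 : 0 ≤ β) (hb : β ≤ b) (S : Finset (ZSite d)) :
    psz β S ≤ psz b S := by
  have h : ∀ x, cz β S x ≤ cz b S x := fun x =>
    hMONO _ _ (zG S) (ins (zG S) univ (S.image (cl S))) (cl S 0) (cl S x) (Set.mem_Ici.2 h0)
      (Set.mem_Ici.2 (h0.trans hb)) hb
  unfold psz
  exact add_le_add (Finset.sum_le_sum fun e _ => h _) (Finset.sum_le_sum fun e _ => h _)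

theorem CRIT (hDI : DI_stmt) (hMONO : MONO_stmt) (hRCO : RCO_stmt) (hGC : GC_stmt) (hTR2 : TR2_stmt) :
    CRIT_stmt := by
  intro d β β' h0 hlt hS L
  set Λ := zBox L (0 : ZSite d) with hΛ
  have hML : ML d β' L = cor (zG Λ) β' univ (cl Λ 0) none := hGC d β' Λ 0
  rw [hML]
  have h0Λ : (0 : ZSite d) ∈ Λ := by
    rw [hΛ]
    unfold zBox
    rw [Fintype.mem_piFinset]
    intro k
    rw [Finset.mem_Icc]
    constructor <;> simp
  have hD : ∀ b, β ≤ b → ∃ D : ℝ, HasDerivAt (fun b => cor (zG Λ) b univ (cl Λ 0) none) D b ∧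
      1 / 2 * (1 - cor (zG Λ) b univ (cl Λ 0) none) ≤ D := by
    intro b hb
    refine hDI _ _ (zG Λ) b univ (h0.trans hb) (cl Λ 0) none (1 / 2) fun S' ha hz => ?_
    have himg := CRIT_img Λ S' hz
    rw [← himg, CRIT_psi hTR2 b Λ _ (Finset.filter_subset _ _) (Finset.mem_filter.2 ⟨h0Λ, ha⟩)]
    exact (hS _ (Finset.mem_filter.2 ⟨h0Λ, ha⟩)).trans (CRIT_mono hMONO β b h0 hb _)
  by_cases hhalf : 1 / 2 ≤ cor (zG Λ) β' univ (cl Λ 0) none
  · exact (min_le_left _ _).trans hhalf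
  · rw [not_le] at hhalf
    refine (min_le_right _ _).trans ?_
    have hmon := hMONO _ _ (zG Λ) univ (cl Λ 0) none
    have hder : ∀ x ∈ Set.Ioo β β', HasDerivAt (fun b => cor (zG Λ) b univ (cl Λ 0) none)
        (deriv (fun b => cor (zG Λ) b univ (cl Λ 0) none) x) x := by
      intro x hx
      obtain ⟨D, h1, _⟩ := hD x hx.1.le
      rw [h1.deriv]; exact h1
    have hcont : ContinuousOn (fun b => cor (zG Λ) b univ (cl Λ 0) none) (Set.Icc β β') := by
      intro x hx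
      obtain ⟨D, h1, _⟩ := hD x hx.1
      exact h1.continuousAt.continuousWithinAt
    obtain ⟨c, hc, hce⟩ := exists_hasDerivAt_eq_slope _ _ hlt hcont hder
    obtain ⟨D, h1, h2⟩ := hD c hc.1.le
    rw [h1.deriv] at hce
    have h3 : cor (zG Λ) c univ (cl Λ 0) none ≤ cor (zG Λ) β' univ (cl Λ 0) none :=
      hmon (Set.mem_Ici.2 (h0.trans hc.1.le)) (Set.mem_Ici.2 (h0.trans hlt.le)) hc.2.le
    have h4 : 0 ≤ cor (zG Λ) β univ (cl Λ 0) none := ((hRCO _ _ (zG Λ) β univ h0).2.2.2 _ _).1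
    have h5 : 1 / 4 ≤ D := by linarith
    have h6 : 0 < β' - β := sub_pos.2 hlt
    rw [hce, le_div_iff₀ h6] at h5
    linarith

end CS
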